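import Pool.Agent.W5h8.TangG

/-!
For every inflated rooted tree poset with deflated leaves on at least two elements, there are at
most as many tangled labelings as quasi-tangled labelings.

All definitions used in the statement are in `Pool.Agent.W5h8.TangDefs`.
-/

namespace Pool.Agent.Results.MP_0963f7_co.TangledLeQuasi

open Pool.Agent.W5h8.Tang

universe u

theorem result : ∀ (P : Type u) [PartialOrder P] [Fintype P],
    IsInflatedTreeDeflatedLeaves P → 2 ≤ Fintype.card P →
      {L : P → ℕ | IsTangled L}.ncard ≤ {L : P → ℕ | IsQuasiTangled L}.ncard :=
  fun _ _ _ hP hn => tangled_le_quasi hP hn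

end Pool.Agent.Results.MP_0963f7_co.TangledLeQuasi
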